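import Pool.Agent.Helper31_CG.RllcC

/-!
# CG, module RLLC: the local lemma of one round
-/

set_option autoImplicit false

namespace Pool.Agent.CG.H31

open SimpleGraph Pool.Agent.LAG Pool.Agent.LLG Pool.Agent.CG
open Pool.Agent.LLG.H31 hiding tl

section lemmas

variable {V G Ξ : Type} {s b : ℕ} [NeZero s] [Fintype V] [Fintype G] [Fintype Ξ]

/-- a violator depends only on its coordinates -/
lemma dep (hE : EvdStmt) (D : Rd V G Ξ s) (k j : ℕ) (hj : 1 ≤ j) (t : Fin s) (A S : Set V)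
    (ω ω' : Cf V G Ξ s b) (h : ∀ i ∈ WV D A S, ω i = ω' i) (hv : D.Ev (prj ω) t k j A S) :
    D.Ev (prj ω') t k j A S := by
  classical
  refine hE V G Ξ s b k j D (prj ω) (prj ω') t A S hj ?_ ?_ ?_ hv
  · intro x y hxy h1
    have h2 : (Sum.inl (D.grp x y) : G ⊕ (Ξ ⊕ V)) ∈ WV D A S := by
      simp only [WV, Finset.mem_filter, Finset.mem_univ, true_and]
      exact Or.inl ⟨(x, y), ⟨hxy, h1⟩, rfl⟩
    change (ω (Sum.inl (D.grp x y))).1 = (ω' (Sum.inl (D.grp x y))).1
    rw [h _ h2]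
  · intro v hv
    have h2 : (Sum.inr (Sum.inr v) : G ⊕ (Ξ ⊕ V)) ∈ WV D A S := by
      simp only [WV, Finset.mem_filter, Finset.mem_univ, true_and]
      exact Or.inr (Or.inr ⟨v, hv, rfl⟩)
    change (ω (Sum.inr (Sum.inr v))).2.2 = (ω' (Sum.inr (Sum.inr v))).2.2
    rw [h _ h2]
  · rintro ξ ⟨r, hr⟩
    have h2 : (Sum.inr (Sum.inl ξ) : G ⊕ (Ξ ⊕ V)) ∈ WV D A S := by
      simp only [WV, Finset.mem_filter, Finset.mem_univ, true_and]
      exact Or.inr (Or.inl ⟨ξ, r, hr, rfl⟩)
    change (ω (Sum.inr (Sum.inl ξ))).2.1 = (ω' (Sum.inr (Sum.inl ξ))).2.1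
    rw [h _ h2]

/-- probability of a violator, in the space with one alphabet -/
lemma prob_V [NeZero b] (hP : PevStmt) (D : Rd V G Ξ s) {k c j m Dd w q : ℕ} {M : ℝ}
    (hnum : NumP k s c j b m Dd w q M) (hD : D.Ok k (6 * j)) (hS : Sid D.O k Dd m q D.al)
    (τ1 τ2 τ3 : ℝ) (h1 : 0 ≤ τ1) (h2 : 0 ≤ τ2) (h3 : 0 ≤ τ3)
    (h4 : τ1 ≤ 1 / (400 * (k : ℝ) ^ 2 * b)) (h5 : τ2 ≤ 1 / (400 * (b : ℝ)))
    (h6 : τ3 ≤ 1 / (400 * (b : ℝ))) (p : VI D.O s) :
    ((({ω : Cf V G Ξ s b | D.Ev (prj ω) p.1.1 k j (p.1.2.1 : Set V) (p.1.2.2 : Set V)}).ncard : ℕ)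
        : ℝ) ≤
      (Real.exp (-M) * Wt (dbl D.O) k c w (kap k c m Dd w)
        (Pool.Agent.CG.tl (p.1.2.1 : Set V) (p.1.2.2 : Set V))) *
      Real.exp (-∑ i ∈ WV D (p.1.2.1 : Set V) (p.1.2.2 : Set V), ta τ1 τ2 τ3 i) *
        (Nat.card (Cf V G Ξ s b) : ℝ) := by
  classical
  have hne : (Pool.Agent.CG.tl (p.1.2.1 : Set V) (p.1.2.2 : Set V)).Nonempty :=
    Set.nonempty_coe_sort.1 p.2.nonempty
  have hb : (0 : ℝ) < b := by exact_mod_cast Nat.pos_of_ne_zero (NeZero.ne b)
  have hk : 1 ≤ k := by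
    have := hnum.2.2.2.2.2.2.2.1
    omega
  have e1 := hP V G Ξ s b k c j m Dd w q M D p.1.1 (p.1.2.1 : Set V) (p.1.2.2 : Set V) hnum hD hS hne
  have e2 := prj_le _ _ e1
  refine e2.trans (mul_le_mul_of_nonneg_right ?_ (Nat.cast_nonneg _))
  refine mul_le_mul_of_nonneg_left ?_ (mul_nonneg (Real.exp_pos _).le
    (Wt_nonneg _ _ _ _ _ _ (dbl_deg hD.reg)))
  rw [Real.exp_le_exp, neg_le_neg_iff]
  exact sum_WV D k (6 * j) hD _ _ τ1 τ2 τ3 b h1 h2 h3 hk hb h4 h5 h6

lemma card_Cf [DecidableEq V] [DecidableEq G] [DecidableEq Ξ] :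
    (Nat.card (Cf V G Ξ s b) : ℝ) = (Fintype.card (Cf V G Ξ s b) : ℝ) := by
  rw [Nat.card_eq_fintype_card]

/-- probability that all arcs of `E` get one colour -/
lemma prob_J [NeZero b] {d : ℕ} (O : V → V → Prop) (grp : V → V → G) (idx : V → V → Fin s)
    (hG : GS O d grp idx) (E : Finset (V × V)) (hE : ∀ a ∈ E, O a.1 a.2) (hc : 1 ≤ E.card) :
    ((({ω : Cf V G Ξ s b | ∃ t : Fin s, ∀ a ∈ E,
      idx a.1 a.2 + (prj ω).1 (grp a.1 a.2) = t}).ncard : ℕ) : ℝ) ≤
      (1 / (s : ℝ)) ^ (E.card - 1) * (Nat.card (Cf V G Ξ s b) : ℝ) := by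
  classical
  have hs0 : (0 : ℝ) < s := by exact_mod_cast Nat.pos_of_ne_zero (NeZero.ne s)
  have h1 : {ω : Cf V G Ξ s b | ∃ t : Fin s, ∀ a ∈ E,
      idx a.1 a.2 + (prj ω).1 (grp a.1 a.2) = t} =
      {ω : Cf V G Ξ s b | prj ω ∈ {o : Om V G Ξ s b | ∃ t : Fin s, ∀ a ∈ E,
        idx a.1 a.2 + o.1 (grp a.1 a.2) = t}} := rfl
  rw [h1]
  refine prj_le _ _ ?_
  have h2 : {o : Om V G Ξ s b | ∃ t : Fin s, ∀ a ∈ E, idx a.1 a.2 + o.1 (grp a.1 a.2) = t} =
      (⋃ t : Fin s, {τ : G → Fin s | ∀ a ∈ E, idx a.1 a.2 + τ (grp a.1 a.2) = t}) ×ˢ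
        (Set.univ : Set ((Ξ → Fin 3) × (V → Fin b))) := by
    ext o
    simp only [Set.mem_setOf_eq, Set.mem_prod, Set.mem_iUnion, Set.mem_univ, and_true]
  rw [h2, Set.ncard_prod, Nat.cast_mul]
  have h3 : Nat.card (Om V G Ξ s b) = Nat.card (G → Fin s) *
      Nat.card ((Ξ → Fin 3) × (V → Fin b)) := Nat.card_prod _ _
  rw [h3, Nat.cast_mul, ← mul_assoc, Set.ncard_univ]
  refine mul_le_mul_of_nonneg_right ?_ (Nat.cast_nonneg _)
  have h4 := Set.ncard_iUnion_le_of_fintype (fun t : Fin s =>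
    {τ : G → Fin s | ∀ a ∈ E, idx a.1 a.2 + τ (grp a.1 a.2) = t})
  have h5 : ((⋃ t : Fin s, {τ : G → Fin s | ∀ a ∈ E,
      idx a.1 a.2 + τ (grp a.1 a.2) = t}).ncard : ℝ) ≤
      ∑ t : Fin s, (({τ : G → Fin s | ∀ a ∈ E,
        idx a.1 a.2 + τ (grp a.1 a.2) = t}.ncard : ℕ) : ℝ) := by exact_mod_cast h4
  refine h5.trans ?_
  refine (Finset.sum_le_sum fun t _ =>
    Pool.Agent.CG.H7.cyl_col O grp idx t hG E hE).trans ?_
  rw [Finset.sum_const, Finset.card_univ, Fintype.card_fin, nsmul_eq_mul, ← mul_assoc]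
  refine mul_le_mul_of_nonneg_right ?_ (Nat.cast_nonneg _)
  obtain ⟨n, hn⟩ : ∃ n, E.card = n + 1 := ⟨E.card - 1, by omega⟩
  rw [hn, pow_succ, Nat.add_sub_cancel]
  have : (s : ℝ) * ((1 / (s : ℝ)) ^ n * (1 / s)) = (1 / (s : ℝ)) ^ n := by
    field_simp
  rw [this]

/-- probability that two vertices are labelled -/
lemma prob_P [NeZero b] {u v : V} (h : u ≠ v) :
    ((({ω : Cf V G Ξ s b | ((prj ω).2.2 u).val < 2 * s ∧ ((prj ω).2.2 v).val < 2 * s}).ncard : ℕ)
        : ℝ) ≤ (2 * s / b) ^ 2 * (Nat.card (Cf V G Ξ s b) : ℝ) := by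
  classical
  have hb : (0 : ℝ) < b := by exact_mod_cast Nat.pos_of_ne_zero (NeZero.ne b)
  let F : Finset (Al s b) := Finset.univ.filter fun a => a.2.2.val < 2 * s
  have hF : ((F.card : ℕ) : ℝ) / Fintype.card (Al s b) ≤ 2 * s / b := by
    have h1 : F = (Finset.univ : Finset (Fin s)) ×ˢ ((Finset.univ : Finset (Fin 3)) ×ˢ
        (Finset.univ.filter fun x : Fin b => x.val < 2 * s)) := by
      ext a
      simp [F]
    have h2 : (Finset.univ.filter fun x : Fin b => x.val < 2 * s).card ≤ 2 * s := by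
      have h3 := Finset.card_le_card_of_injOn
        (s := Finset.univ.filter fun x : Fin b => x.val < 2 * s)
        (t := Finset.range (2 * s)) (fun x => x.val)
        (fun x hx => by simpa using hx) (fun x _ y _ h => Fin.ext h)
      rwa [Finset.card_range] at h3
    have hs0 : (0 : ℝ) < s := by exact_mod_cast Nat.pos_of_ne_zero (NeZero.ne s)
    have h4 : (Fintype.card (Al s b) : ℝ) = s * (3 * b) := by
      rw [Fintype.card_prod, Fintype.card_prod, Fintype.card_fin, Fintype.card_fin,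
        Fintype.card_fin]
      push_cast
      ring
    have h5 : (F.card : ℝ) = s * (3 * ((Finset.univ.filter fun x : Fin b =>
        x.val < 2 * s).card : ℝ)) := by
      rw [h1, Finset.card_product, Finset.card_product, Finset.card_univ, Finset.card_univ,
        Fintype.card_fin, Fintype.card_fin]
      push_cast
      ring
    have h6 : (((Finset.univ.filter fun x : Fin b => x.val < 2 * s).card : ℕ) : ℝ) ≤ 2 * s := by
      exact_mod_cast h2
    rw [h4, h5, div_le_div_iff₀ (by positivity) hb]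
    have h7 : (0 : ℝ) ≤ s * 3 * b := by positivity
    nlinarith [mul_le_mul_of_nonneg_left h6 h7]
  have h1 := cyl_pow (I := G ⊕ (Ξ ⊕ V)) (α := Al s b)
    ({Sum.inr (Sum.inr u), Sum.inr (Sum.inr v)} : Finset (G ⊕ (Ξ ⊕ V))) (fun _ => F)
    (2 * s / b : ℝ) (fun _ _ => hF)
  rw [Finset.card_pair (fun h' => h (Sum.inr_injective (Sum.inr_injective h')))] at h1
  rw [card_Cf]
  refine le_trans (le_of_eq ?_) h1
  congr 2
  ext ω
  simp only [Set.mem_setOf_eq, Finset.mem_insert, Finset.mem_singleton, forall_eq_or_imp,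
    forall_eq, F, Finset.mem_filter, Finset.mem_univ, true_and]
  rfl

/-- number of arcs of a group -/
lemma card_grp {d : ℕ} (O : V → V → Prop) (grp : V → V → G) (idx : V → V → Fin s)
    (hG : GS O d grp idx) (g : G) [DecidablePred fun a : V × V => O a.1 a.2 ∧ grp a.1 a.2 = g] :
    (Finset.univ.filter fun a : V × V => O a.1 a.2 ∧ grp a.1 a.2 = g).card ≤ s := by
  have h2 := Finset.card_le_card_of_injOn
    (s := Finset.univ.filter fun a : V × V => O a.1 a.2 ∧ grp a.1 a.2 = g)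
    (t := (Finset.univ : Finset (Fin s))) (fun a => idx a.1 a.2)
    (fun a _ => Finset.mem_coe.2 (Finset.mem_univ _)) (by
      intro a ha a' ha' h
      rw [Finset.mem_coe, Finset.mem_filter] at ha ha'
      have h3 := hG.inj _ _ _ _ ha.2.1 ha'.2.1 (ha.2.2.trans ha'.2.2.symm) h
      exact Prod.ext h3.1 h3.2)
  rwa [Finset.card_univ, Fintype.card_fin] at h2

lemma rev_ok (D : Rd V G Ξ s) (k d : ℕ) (hD : D.Ok k d) : D.rev.Ok k d where
  reg v := ⟨(hD.reg v).2, (hD.reg v).1⟩
  gs :=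
    { inj := fun x y x' y' h1 h2 h3 h4 => (hD.gs.inj y x y' x' h1 h2 h3 h4).symm
      sh := fun x y x' y' h1 h2 h3 => (hD.gs.sh y x y' x' h1 h2 h3).symm
      dt := fun τ t x => hD.gs.dh τ t x
      dh := fun τ t y => hD.gs.dt τ t y }
  eO ξ r := hD.eO ξ r
  ed ξ r ξ' r' h := ⟨(hD.ed ξ r ξ' r' h).2, (hD.ed ξ r ξ' r' h).1⟩

lemma eb_swap {X Y : Type} (E : X → Y → Prop) (A : Set X) (S : Set Y) :
    eb (fun y x => E x y) S A = eb E A S := by
  unfold eb
  have h : {p : Y × X | p.1 ∈ S ∧ p.2 ∈ A ∧ E p.2 p.1} =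
      Prod.swap '' {p : X × Y | p.1 ∈ A ∧ p.2 ∈ S ∧ E p.1 p.2} := by
    ext p
    constructor
    · rintro ⟨h1, h2, h3⟩
      exact ⟨(p.2, p.1), ⟨h2, h1, h3⟩, rfl⟩
    · rintro ⟨p', ⟨h1, h2, h3⟩, rfl⟩
      exact ⟨h2, h1, h3⟩
  rw [h, Set.ncard_image_of_injective _ Prod.swap_injective]

end lemmas

/-- RLLC -/
theorem rllc (hVio : ViodStmt) (hPev : PevStmt) (hEvd : EvdStmt) (hCount : CountcStmt)
    (hKon : KonStmt) (hLl : LllwStmt) : RllcStmt := by
  classical
  intro V _ O k s c j b m Dd w q n1 lm _ η M al cf J _ ev Ξ _ e hnum hreg hS1 hS2 hcfs hcfn hev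
    heta heO hed
  obtain ⟨hP, hη, hlm, hn1, hn2, hn3⟩ := hnum
  have hP' := hP
  obtain ⟨hj, hc, h12, h100, hs4, hm, h2sb, h1369, hw, h2D, hq1, hq2, hgam, hkap, hM, hMb, hM1,
    hM2⟩ := hP'
  have hj1 : 1 ≤ j := by omega
  have hk2 : 2 ≤ k := by omega
  have hw1 : 1 ≤ w := by omega
  have hb0 : 0 < b := by omega
  haveI : NeZero b := ⟨hb0.ne'⟩
  haveI : Nonempty (Al s b) := ⟨(0, 0, 0)⟩
  have h2sk : 2 * s ≤ k := by
    have : 2 * s ≤ 12 * j * s := Nat.mul_le_mul_right s (by omega)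
    omega
  obtain ⟨G, hGf, grp, idx, hG⟩ := hKon V O k s (6 * j) hreg (by
    have : 2 * (6 * j) * s = 12 * j * s := by ring
    omega)
  let D : Rd V G Ξ s := ⟨O, grp, idx, e, al, false⟩
  have hD : D.Ok k (6 * j) := ⟨hreg, hG, heO, hed⟩
  have hD' : D.rev.Ok k (6 * j) := rev_ok D k _ hD
  have hS1' : Sid D.O k Dd m q D.al := hS1
  have hS2' : Sid D.rev.O k Dd m q D.rev.al := hS2
  have hdeg : ∀ v, ((dbl D.O).neighborSet v).ncard = k := dbl_deg hD.reg
  have hdeg' : ∀ v, ((dbl D.rev.O).neighborSet v).ncard = k := dbl_deg hD'.reg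
  -- real numbers
  have hkR : (2 : ℝ) ≤ k := by exact_mod_cast hk2
  have hsR : (4 : ℝ) ≤ s := by exact_mod_cast hs4
  have hbR : (1 : ℝ) ≤ b := by exact_mod_cast hb0
  set X : ℝ := Real.exp (-M) with hX
  have hX0 : 0 < X := Real.exp_pos _
  have hX2 : X ≤ 1 / 2 := by
    have h1 : X ≤ Real.exp (-1) := Real.exp_le_exp.2 (by linarith)
    have h2 : Real.exp (-1) ≤ 1 / 2 := by
      rw [Real.exp_neg, one_div]
      apply inv_anti₀ (by norm_num)
      have := Real.add_one_le_exp (1 : ℝ)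
      linarith
    linarith
  set τ1 : ℝ := 4 * (s : ℝ) * (k : ℝ) ^ 2 * X + 4 * s * η with hτ1
  set τ2 : ℝ := 24 * (s : ℝ) * X with hτ2
  set τ3 : ℝ := 8 * (s : ℝ) * X + 32 * n1 * (s : ℝ) ^ 2 / (b : ℝ) ^ 2 with hτ3
  set cb : ℝ := 8 * (s : ℝ) ^ 2 / (b : ℝ) ^ 2 with hcb
  have hτ10 : 0 ≤ τ1 := by positivity
  have hτ20 : 0 ≤ τ2 := by positivity
  have hτ30 : 0 ≤ τ3 := by positivity
  have hcb0 : 0 ≤ cb := by positivity
  have hcb4 : (2 * s / b : ℝ) ^ 2 = cb / 2 := by
    rw [hcb]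
    field_simp
    norm_num
  have hkap0 : 0 ≤ kap k c m Dd w := by
    unfold kap
    positivity
  let C := {p : V × V // p.1 ≠ p.2 ∧ cf p.1 p.2}
  have hcbC : ∀ p : C, cb ≤ 1 / 2 := by
    intro p
    have h1 : 1 ≤ n1 := by
      refine le_trans ?_ (hcfn p.1.2)
      rw [Nat.one_le_iff_ne_zero, ← Nat.pos_iff_ne_zero, Set.ncard_pos]
      exact ⟨p.1.1, p.2.2⟩
    have h1R : (1 : ℝ) ≤ n1 := by exact_mod_cast h1
    have h2 : 32 * (n1 : ℝ) * (s : ℝ) ^ 2 / (b : ℝ) ^ 2 = 4 * n1 * cb := by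
      rw [hcb]; ring
    have h3 : 1 / (400 * (b : ℝ)) ≤ 1 / 400 :=
      one_div_le_one_div_of_le (by norm_num) (by linarith)
    have h4 : 0 ≤ 8 * (s : ℝ) * X := by positivity
    have h5 : 4 * n1 * cb ≤ 1 / 400 := by
      rw [← h2]; linarith
    nlinarith
  let B : VI D.O s ⊕ (VI D.rev.O s ⊕ (J ⊕ C)) → Set (G ⊕ (Ξ ⊕ V) → Al s b) :=
    Sum.elim (fun p => {ω | D.Ev (prj ω) p.1.1 k j (p.1.2.1 : Set V) (p.1.2.2 : Set V)})
      (Sum.elim (fun p => {ω | D.rev.Ev (prj ω) p.1.1 k j (p.1.2.1 : Set V) (p.1.2.2 : Set V)})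
        (Sum.elim (fun i => {ω | ∃ t : Fin s, ∀ a ∈ ev i,
            idx a.1 a.2 + (prj ω).1 (grp a.1 a.2) = t})
          (fun p => {ω | ((prj ω).2.2 p.1.1).val < 2 * s ∧ ((prj ω).2.2 p.1.2).val < 2 * s})))
  let W : VI D.O s ⊕ (VI D.rev.O s ⊕ (J ⊕ C)) → Finset (G ⊕ (Ξ ⊕ V)) :=
    Sum.elim (fun p => WV D (p.1.2.1 : Set V) (p.1.2.2 : Set V))
      (Sum.elim (fun p => WV D.rev (p.1.2.1 : Set V) (p.1.2.2 : Set V))
        (Sum.elim (fun i => (ev i).image fun a => Sum.inl (grp a.1 a.2))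
          (fun p => {Sum.inr (Sum.inr p.1.1), Sum.inr (Sum.inr p.1.2)})))
  let x : VI D.O s ⊕ (VI D.rev.O s ⊕ (J ⊕ C)) → ℝ :=
    Sum.elim (fun p => X * Wt (dbl D.O) k c w (kap k c m Dd w)
        (Pool.Agent.CG.tl (p.1.2.1 : Set V) (p.1.2.2 : Set V)))
      (Sum.elim (fun p => X * Wt (dbl D.rev.O) k c w (kap k c m Dd w)
          (Pool.Agent.CG.tl (p.1.2.1 : Set V) (p.1.2.2 : Set V)))
        (Sum.elim (fun i => 2 * (1 / (s : ℝ)) ^ ((ev i).card - 1)) (fun _ => cb)))
  have hxE : ∀ i, 0 ≤ 2 * (1 / (s : ℝ)) ^ ((ev i).card - 1) ∧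
      2 * (1 / (s : ℝ)) ^ ((ev i).card - 1) ≤ 1 / 2 := by
    intro i
    refine ⟨by positivity, ?_⟩
    have h1 : (1 / (s : ℝ)) ^ ((ev i).card - 1) ≤ (1 / (s : ℝ)) ^ 1 := by
      apply pow_le_pow_of_le_one (by positivity)
      · rw [div_le_one (by linarith)]; linarith
      · have := (hev i).2.2
        omega
    rw [pow_one] at h1
    have h2 : 1 / (s : ℝ) ≤ 1 / 4 := one_div_le_one_div_of_le (by norm_num) hsR
    linarith
  have main := hLl (G ⊕ (Ξ ⊕ V)) (Al s b) (VI D.O s ⊕ (VI D.rev.O s ⊕ (J ⊕ C))) B W x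
    (ta τ1 τ2 τ3) ?_ ?_ ?_ ?_
  · -- conclusion
    obtain ⟨ω, hω⟩ := main
    let lab : V → Option (Fin s × Bool) := fun v => if v ∈ al then dec s ((prj ω).2.2 v) else none
    have hZ : ∀ t : Fin s, {v | lab v = some (t, true)} = D.Z (prj ω) t := by
      intro t
      ext v
      simp only [lab, Set.mem_setOf_eq, Rd.Z]
      constructor
      · intro h
        split_ifs at h with h1
        refine ⟨h1, ?_⟩
        rw [(dec_eq h2sb _ _ _).1 h]
        rfl
      · rintro ⟨h1, h2⟩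
        rw [if_pos (show v ∈ al from h1), dec_eq h2sb]
        exact Fin.ext h2
    have hZ' : ∀ t : Fin s, {v | lab v = some (t, false)} = D.rev.Z (prj ω) t := by
      intro t
      ext v
      simp only [lab, Set.mem_setOf_eq, Rd.Z]
      constructor
      · intro h
        split_ifs at h with h1
        refine ⟨h1, ?_⟩
        rw [(dec_eq h2sb _ _ _).1 h]
        rfl
      · rintro ⟨h1, h2⟩
        rw [if_pos (show v ∈ al from h1), dec_eq h2sb]
        exact Fin.ext h2
    refine ⟨fun u v => idx u v + (prj ω).1 (grp u v), lab, (prj ω).2.1, ?_, ?_, ?_, ?_, ?_⟩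
    · intro v hv
      by_contra hcon
      exact hv (by simp only [lab, if_neg hcon])
    · intro u v huv hcf
      by_contra hcon
      push Not at hcon
      have h1 : ∀ z, lab z ≠ none → ((prj ω).2.2 z).val < 2 * s := by
        intro z hz
        by_contra hz2
        apply hz
        simp only [lab]
        split_ifs
        · exact (dec_none _).2 hz2
        · rfl
      exact hω (Sum.inr (Sum.inr (Sum.inr ⟨(u, v), huv, hcf⟩))) ⟨h1 u hcon.1, h1 v hcon.2⟩
    · rintro i ⟨t, ht⟩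
      exact hω (Sum.inr (Sum.inr (Sum.inl i))) ⟨t, ht⟩
    · intro t A S
      by_contra hcon
      push Not at hcon
      have hF : (fun x y => O x y ∧ idx x y + (prj ω).1 (grp x y) = t ∧
          ∃ ξ, e ξ ((prj ω).2.1 ξ) = (x, y)) = D.F (prj ω) t := by
        funext x y
        exact propext (and_assoc).symm
      rw [hZ t, hF] at hcon
      obtain ⟨A', S', hconn, hev'⟩ := hVio V G Ξ s b k j D (prj ω) t hj1 hD ⟨A, S, hcon⟩
      have hgc : ∀ X Y : Set V, X = A' → Y = S' →
          ((dbl D.O).induce (Pool.Agent.CG.tl X Y)).Connected := by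
        rintro _ _ rfl rfl
        exact hconn
      have hge : ∀ X Y : Set V, X = A' → Y = S' → D.Ev (prj ω) t k j X Y := by
        rintro _ _ rfl rfl
        exact hev'
      exact hω (Sum.inl ⟨(t, (A'.toFinset, S'.toFinset)),
        hgc _ _ (Set.coe_toFinset _) (Set.coe_toFinset _)⟩)
        (hge _ _ (Set.coe_toFinset _) (Set.coe_toFinset _))
    · intro t A S
      by_contra hcon
      push Not at hcon
      have hF : (fun x y => O x y ∧ idx x y + (prj ω).1 (grp x y) = t ∧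
          ∃ ξ, e ξ ((prj ω).2.1 ξ) = (x, y)) = fun x y => D.rev.F (prj ω) t y x := by
        funext x y
        refine propext ⟨fun h => ⟨⟨h.1, h.2.1⟩, ?_⟩, fun h => ⟨h.1.1, h.1.2, ?_⟩⟩
        · obtain ⟨ξ, hξ⟩ := h.2.2
          refine ⟨ξ, ?_⟩
          change (e ξ ((prj ω).2.1 ξ)).swap = (y, x)
          rw [hξ]
          rfl
        · obtain ⟨ξ, hξ⟩ := h.2
          refine ⟨ξ, ?_⟩
          have hξ' : (e ξ ((prj ω).2.1 ξ)).swap = (y, x) := hξ
          rw [← Prod.swap_swap (e ξ ((prj ω).2.1 ξ)), hξ']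
          rfl
      have hB : (fun x y => O x y ∧ idx x y + (prj ω).1 (grp x y) = t) =
          fun x y => D.rev.B (prj ω) t y x := rfl
      have hb2 := eb_swap (D.rev.B (prj ω) t) S Aᶜ
      have hf2 := eb_swap (D.rev.F (prj ω) t) Sᶜ A
      rw [hZ' t, hF, hB, hb2, hf2] at hcon
      obtain ⟨A', S', hconn, hev'⟩ := hVio V G Ξ s b k j D.rev (prj ω) t hj1 hD' ⟨S, A, hcon⟩
      have hgc : ∀ X Y : Set V, X = A' → Y = S' →
          ((dbl D.rev.O).induce (Pool.Agent.CG.tl X Y)).Connected := by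
        rintro _ _ rfl rfl
        exact hconn
      have hge : ∀ X Y : Set V, X = A' → Y = S' → D.rev.Ev (prj ω) t k j X Y := by
        rintro _ _ rfl rfl
        exact hev'
      exact hω (Sum.inr (Sum.inl ⟨(t, (A'.toFinset, S'.toFinset)),
        hgc _ _ (Set.coe_toFinset _) (Set.coe_toFinset _)⟩))
        (hge _ _ (Set.coe_toFinset _) (Set.coe_toFinset _))
  · -- dependence
    rintro (p | p | i | p) ω ω' h hB
    · exact dep hEvd D k j hj1 p.1.1 _ _ ω ω' h hB
    · exact dep hEvd D.rev k j hj1 p.1.1 _ _ ω ω' h hB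
    · obtain ⟨t, ht⟩ := hB
      refine ⟨t, fun a ha => ?_⟩
      rw [← ht a ha]
      have h1 := h (Sum.inl (grp a.1 a.2)) (Finset.mem_image.2 ⟨a, ha, rfl⟩)
      change idx a.1 a.2 + (ω' (Sum.inl (grp a.1 a.2))).1 =
        idx a.1 a.2 + (ω (Sum.inl (grp a.1 a.2))).1
      rw [h1]
    · have h1 := h (Sum.inr (Sum.inr p.1.1)) (Finset.mem_insert_self _ _)
      have h2 := h (Sum.inr (Sum.inr p.1.2))
        (Finset.mem_insert_of_mem (Finset.mem_singleton_self _))
      have hB1 : ((ω (Sum.inr (Sum.inr p.1.1))).2.2).val < 2 * s := hB.1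
      have hB2 : ((ω (Sum.inr (Sum.inr p.1.2))).2.2).val < 2 * s := hB.2
      rw [h1] at hB1
      rw [h2] at hB2
      exact ⟨hB1, hB2⟩
  · -- bounds
    rintro (p | p | i | p)
    · refine ⟨mul_nonneg hX0.le (Wt_nonneg _ _ _ _ _ _ hdeg), ?_⟩
      have h1 := Wt_le_one (dbl D.O) k c w (kap k c m Dd w)
        (Pool.Agent.CG.tl (p.1.2.1 : Set V) (p.1.2.2 : Set V)) (by omega) hkap0 hdeg
      calc _ ≤ X * 1 := mul_le_mul_of_nonneg_left h1 hX0.le
        _ ≤ 1 / 2 := by rw [mul_one]; exact hX2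
    · refine ⟨mul_nonneg hX0.le (Wt_nonneg _ _ _ _ _ _ hdeg'), ?_⟩
      have h1 := Wt_le_one (dbl D.rev.O) k c w (kap k c m Dd w)
        (Pool.Agent.CG.tl (p.1.2.1 : Set V) (p.1.2.2 : Set V)) (by omega) hkap0 hdeg'
      calc _ ≤ X * 1 := mul_le_mul_of_nonneg_left h1 hX0.le
        _ ≤ 1 / 2 := by rw [mul_one]; exact hX2
    · exact hxE i
    · exact ⟨hcb0, hcbC p⟩
  · -- sums
    intro v J' hJ'
    rw [← J'.toLeft_disjSum_toRight, Finset.sum_disjSum,
      ← J'.toRight.toLeft_disjSum_toRight, Finset.sum_disjSum,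
      ← J'.toRight.toRight.toLeft_disjSum_toRight, Finset.sum_disjSum]
    have s1 : ∑ p ∈ J'.toLeft, x (Sum.inl p) ≤ s * (PB D v).card * X :=
      viol_sum hCount D hk2 hc hm hw1 hD hS1'.1 hgam v _ (fun p hp => by
        rw [Finset.mem_toLeft] at hp
        exact hJ' _ hp) X hX0.le
    have s2 : ∑ p ∈ J'.toRight.toLeft, x (Sum.inr (Sum.inl p)) ≤ s * (PB D.rev v).card * X :=
      viol_sum hCount D.rev hk2 hc hm hw1 hD' hS2'.1 hgam v _ (fun p hp => by
        rw [Finset.mem_toLeft, Finset.mem_toRight] at hp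
        exact hJ' _ hp) X hX0.le
    rcases v with g | ξ | z
    · -- a group
      have c1 : ((PB D (Sum.inl g)).card : ℝ) ≤ (k : ℝ) ^ 2 := by
        exact_mod_cast card_PB1 D k _ hD h2sk g
      have c2 : ((PB D.rev (Sum.inl g)).card : ℝ) ≤ (k : ℝ) ^ 2 := by
        exact_mod_cast card_PB1 D.rev k _ hD' h2sk g
      have s3 : ∑ i ∈ J'.toRight.toRight.toLeft, x (Sum.inr (Sum.inr (Sum.inl i))) ≤
          2 * s * η := by
        set J3 := J'.toRight.toRight.toLeft with hJ3
        set Ag := Finset.univ.filter fun a : V × V => O a.1 a.2 ∧ grp a.1 a.2 = g with hAg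
        have hmem : ∀ i ∈ J3, ∃ a ∈ Ag, a ∈ ev i := by
          intro i hi
          rw [hJ3, Finset.mem_toLeft, Finset.mem_toRight, Finset.mem_toRight] at hi
          have h1 := hJ' _ hi
          simp only [W, Sum.elim_inr, Sum.elim_inl] at h1
          obtain ⟨a, ha, h2⟩ := Finset.mem_image.1 h1
          refine ⟨a, ?_, ha⟩
          rw [hAg, Finset.mem_filter]
          exact ⟨Finset.mem_univ _, (hev i).1 a ha, Sum.inl_injective h2⟩
        calc ∑ i ∈ J3, x (Sum.inr (Sum.inr (Sum.inl i))) ≤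
            ∑ i ∈ J3, ∑ a ∈ Ag, (if a ∈ ev i then x (Sum.inr (Sum.inr (Sum.inl i))) else 0) := by
              refine Finset.sum_le_sum fun i hi => ?_
              obtain ⟨a, ha1, ha2⟩ := hmem i hi
              have h6 := Finset.single_le_sum (f := fun a =>
                if a ∈ ev i then x (Sum.inr (Sum.inr (Sum.inl i))) else 0)
                (fun a _ => by
                  split_ifs
                  · exact (hxE i).1
                  · exact le_rfl) ha1
              simp only [if_pos ha2] at h6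
              exact h6
          _ = ∑ a ∈ Ag, ∑ i ∈ J3, (if a ∈ ev i then x (Sum.inr (Sum.inr (Sum.inl i))) else 0) :=
              Finset.sum_comm
          _ ≤ ∑ _a ∈ Ag, 2 * η := by
              refine Finset.sum_le_sum fun a _ => ?_
              rw [← Finset.sum_filter]
              have h7 := heta a (J3.filter fun i => a ∈ ev i) (fun i hi =>
                (Finset.mem_filter.1 hi).2)
              simp only [x, Sum.elim_inr, Sum.elim_inl]
              rw [← Finset.mul_sum]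
              linarith
          _ ≤ 2 * s * η := by
              rw [Finset.sum_const, nsmul_eq_mul]
              have h8 : (Ag.card : ℝ) ≤ s := by
                exact_mod_cast card_grp O grp idx hG g
              nlinarith
      have s4 : ∑ p ∈ J'.toRight.toRight.toRight, x (Sum.inr (Sum.inr (Sum.inr p))) = 0 := by
        have : J'.toRight.toRight.toRight = ∅ := by
          rw [Finset.eq_empty_iff_forall_notMem]
          intro p hp
          rw [Finset.mem_toRight, Finset.mem_toRight, Finset.mem_toRight] at hp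
          have h2 := hJ' _ hp
          simp [W] at h2
        rw [this, Finset.sum_empty]
      rw [s4]
      simp only [ta, Sum.elim_inl]
      rw [hτ1]
      have e1 : (s : ℝ) * (PB D (Sum.inl g)).card * X ≤ s * (k : ℝ) ^ 2 * X :=
        mul_le_mul_of_nonneg_right (mul_le_mul_of_nonneg_left c1 (by linarith)) hX0.le
      have e2 : (s : ℝ) * (PB D.rev (Sum.inl g)).card * X ≤ s * (k : ℝ) ^ 2 * X :=
        mul_le_mul_of_nonneg_right (mul_le_mul_of_nonneg_left c2 (by linarith)) hX0.le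
      linarith
    · -- a candidate
      have c1 : ((PB D (Sum.inr (Sum.inl ξ))).card : ℝ) ≤ 3 := by
        exact_mod_cast card_PB2 D ξ
      have c2 : ((PB D.rev (Sum.inr (Sum.inl ξ))).card : ℝ) ≤ 3 := by
        exact_mod_cast card_PB2 D.rev ξ
      have s3 : ∑ i ∈ J'.toRight.toRight.toLeft, x (Sum.inr (Sum.inr (Sum.inl i))) = 0 := by
        have : J'.toRight.toRight.toLeft = ∅ := by
          rw [Finset.eq_empty_iff_forall_notMem]
          intro i hi
          rw [Finset.mem_toLeft, Finset.mem_toRight, Finset.mem_toRight] at hi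
          have h2 := hJ' _ hi
          simp [W] at h2
        rw [this, Finset.sum_empty]
      have s4 : ∑ p ∈ J'.toRight.toRight.toRight, x (Sum.inr (Sum.inr (Sum.inr p))) = 0 := by
        have : J'.toRight.toRight.toRight = ∅ := by
          rw [Finset.eq_empty_iff_forall_notMem]
          intro p hp
          rw [Finset.mem_toRight, Finset.mem_toRight, Finset.mem_toRight] at hp
          have h2 := hJ' _ hp
          simp [W] at h2
        rw [this, Finset.sum_empty]
      rw [s3, s4]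
      simp only [ta, Sum.elim_inr, Sum.elim_inl]
      rw [hτ2]
      have e1 : (s : ℝ) * (PB D (Sum.inr (Sum.inl ξ))).card * X ≤ s * 3 * X :=
        mul_le_mul_of_nonneg_right (mul_le_mul_of_nonneg_left c1 (by linarith)) hX0.le
      have e2 : (s : ℝ) * (PB D.rev (Sum.inr (Sum.inl ξ))).card * X ≤ s * 3 * X :=
        mul_le_mul_of_nonneg_right (mul_le_mul_of_nonneg_left c2 (by linarith)) hX0.le
      have e3 : 0 ≤ (s : ℝ) * X := by positivity
      linarith
    · -- a label
      have c1 : ((PB D (Sum.inr (Sum.inr z))).card : ℝ) ≤ 1 := by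
        exact_mod_cast card_PB3 D z
      have c2 : ((PB D.rev (Sum.inr (Sum.inr z))).card : ℝ) ≤ 1 := by
        exact_mod_cast card_PB3 D.rev z
      have s3 : ∑ i ∈ J'.toRight.toRight.toLeft, x (Sum.inr (Sum.inr (Sum.inl i))) = 0 := by
        have : J'.toRight.toRight.toLeft = ∅ := by
          rw [Finset.eq_empty_iff_forall_notMem]
          intro i hi
          rw [Finset.mem_toLeft, Finset.mem_toRight, Finset.mem_toRight] at hi
          have h2 := hJ' _ hi
          simp [W] at h2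
        rw [this, Finset.sum_empty]
      have s4 : ∑ p ∈ J'.toRight.toRight.toRight, x (Sum.inr (Sum.inr (Sum.inr p))) ≤
          2 * n1 * cb := by
        have h1 : J'.toRight.toRight.toRight.card ≤ 2 * n1 := by
          have h2 : (J'.toRight.toRight.toRight.map (Function.Embedding.subtype _)) ⊆
              (({y | cf y z}.toFinset.image fun y => (z, y)) ∪
                ({y | cf y z}.toFinset.image fun y => (y, z)) : Finset (V × V)) := by
            intro p hp
            rw [Finset.mem_map] at hp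
            obtain ⟨p', hp', rfl⟩ := hp
            rw [Finset.mem_toRight, Finset.mem_toRight, Finset.mem_toRight] at hp'
            have h3 := hJ' _ hp'
            simp only [W, Sum.elim_inr, Finset.mem_insert, Finset.mem_singleton] at h3
            rw [Finset.mem_union, Finset.mem_image, Finset.mem_image]
            rcases h3 with h3 | h3
            · have h4 := Sum.inr_injective (Sum.inr_injective h3)
              left
              refine ⟨p'.1.2, ?_, ?_⟩
              · rw [Set.mem_toFinset, Set.mem_setOf_eq, h4]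
                exact hcfs _ _ p'.2.2
              · rw [h4]
                rfl
            · have h4 := Sum.inr_injective (Sum.inr_injective h3)
              right
              refine ⟨p'.1.1, ?_, ?_⟩
              · rw [Set.mem_toFinset, Set.mem_setOf_eq, h4]
                exact p'.2.2
              · rw [h4]
                rfl
          have h3 := Finset.card_le_card h2
          rw [Finset.card_map] at h3
          have h4 : ({y | cf y z}.toFinset : Finset V).card ≤ n1 := by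
            rw [← Set.ncard_eq_toFinset_card']
            exact hcfn z
          refine h3.trans ((Finset.card_union_le _ _).trans ?_)
          have h5 := Finset.card_image_le (s := ({y | cf y z}.toFinset : Finset V))
            (f := fun y => (z, y))
          have h6 := Finset.card_image_le (s := ({y | cf y z}.toFinset : Finset V))
            (f := fun y => (y, z))
          omega
        simp only [x, Sum.elim_inr]
        rw [Finset.sum_const, nsmul_eq_mul]
        refine mul_le_mul_of_nonneg_right ?_ hcb0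
        exact_mod_cast h1
      rw [s3]
      simp only [ta, Sum.elim_inr]
      rw [hτ3]
      have e0 : 32 * (n1 : ℝ) * (s : ℝ) ^ 2 / (b : ℝ) ^ 2 = 2 * (2 * n1 * cb) := by
        rw [hcb]; ring
      have e1 : (s : ℝ) * (PB D (Sum.inr (Sum.inr z))).card * X ≤ s * 1 * X :=
        mul_le_mul_of_nonneg_right (mul_le_mul_of_nonneg_left c1 (by linarith)) hX0.le
      have e2 : (s : ℝ) * (PB D.rev (Sum.inr (Sum.inr z))).card * X ≤ s * 1 * X :=
        mul_le_mul_of_nonneg_right (mul_le_mul_of_nonneg_left c2 (by linarith)) hX0.le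
      have e3 : 0 ≤ (s : ℝ) * X := by positivity
      rw [e0]
      linarith
  · -- probabilities
    have hcard : (Nat.card (Cf V G Ξ s b) : ℝ) = (Fintype.card (G ⊕ (Ξ ⊕ V) → Al s b) : ℝ) :=
      card_Cf
    rintro (p | p | i | p)
    · have h1 := prob_V hPev D hP hD hS1' τ1 τ2 τ3 hτ10 hτ20 hτ30 hn1 hn3 hn2 p
      rw [hcard] at h1
      exact h1
    · have h1 := prob_V hPev D.rev hP hD' hS2' τ1 τ2 τ3 hτ10 hτ20 hτ30 hn1 hn3 hn2 p
      rw [hcard] at h1
      exact h1
    · have h1 := prob_J (Ξ := Ξ) (b := b) O grp idx hG (ev i) (hev i).1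
        (by have := (hev i).2.2; omega)
      rw [hcard] at h1
      refine h1.trans (mul_le_mul_of_nonneg_right ?_ (Nat.cast_nonneg _))
      have h2 : ∑ v ∈ W (Sum.inr (Sum.inr (Sum.inl i))), ta τ1 τ2 τ3 v ≤ 1 / 2 := by
        have h3 : ∑ v ∈ W (Sum.inr (Sum.inr (Sum.inl i))), ta τ1 τ2 τ3 v ≤
            (ev i).card * τ1 := sum_image_le' _ _ _ _ hτ10 fun _ _ => rfl
        have h4 : ((ev i).card : ℝ) ≤ lm := by exact_mod_cast (hev i).2.1
        have h5 : ((ev i).card : ℝ) * τ1 ≤ 200 * (k : ℝ) ^ 2 * b * (1 / (400 * (k : ℝ) ^ 2 * b)) :=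
          mul_le_mul (h4.trans hlm) hn1 hτ10 (by positivity)
        have h6 : 200 * (k : ℝ) ^ 2 * b * (1 / (400 * (k : ℝ) ^ 2 * b)) = 1 / 2 := by
          field_simp
          norm_num
        linarith
      have h6 : Real.exp (-(1 / 2)) ≤
          Real.exp (-∑ v ∈ W (Sum.inr (Sum.inr (Sum.inl i))), ta τ1 τ2 τ3 v) :=
        Real.exp_le_exp.2 (by linarith)
      have h7 := half_le_exp
      simp only [x, Sum.elim_inr, Sum.elim_inl]
      have h8 : (0 : ℝ) ≤ (1 / (s : ℝ)) ^ ((ev i).card - 1) := by positivity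
      nlinarith
    · have h1 := prob_P (G := G) (Ξ := Ξ) (s := s) (b := b) p.2.1
      rw [hcard] at h1
      refine h1.trans (mul_le_mul_of_nonneg_right ?_ (Nat.cast_nonneg _))
      have h2 : ∑ v ∈ W (Sum.inr (Sum.inr (Sum.inr p))), ta τ1 τ2 τ3 v ≤ 1 / 2 := by
        have h3 : ∑ v ∈ W (Sum.inr (Sum.inr (Sum.inr p))), ta τ1 τ2 τ3 v = 2 * τ3 := by
          simp only [W, Sum.elim_inr]
          rw [Finset.sum_pair (fun h' => p.2.1 (Sum.inr_injective (Sum.inr_injective h')))]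
          simp only [ta, Sum.elim_inr]
          ring
        rw [h3]
        have h4 : 1 / (400 * (b : ℝ)) ≤ 1 / 400 := by
          apply one_div_le_one_div_of_le (by norm_num)
          linarith
        linarith
      have h6 : Real.exp (-(1 / 2)) ≤
          Real.exp (-∑ v ∈ W (Sum.inr (Sum.inr (Sum.inr p))), ta τ1 τ2 τ3 v) :=
        Real.exp_le_exp.2 (by linarith)
      have h7 := half_le_exp
      simp only [x, Sum.elim_inr]
      rw [hcb4]
      nlinarith

end Pool.Agent.CG.H31
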