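import Pool.Agent.Helper9_CG.Stmt
import Pool.Agent.Helper7_CG.Wit
import Pool.Agent.Helper31_LLG.RllD

/-!
# CG, module RLLC, part A: one alphabet for all coordinates
-/

set_option autoImplicit false

namespace Pool.Agent.CG.H31

open SimpleGraph Pool.Agent.LAG Pool.Agent.LLG Pool.Agent.CG Pool.Agent.LLG.H31

/-- the alphabet -/
abbrev Al (s b : ℕ) : Type := Fin s × Fin 3 × Fin b

/-- the configurations with one alphabet -/
abbrev Cf (V G Ξ : Type) (s b : ℕ) : Type := (G ⊕ (Ξ ⊕ V)) → Al s b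

/-- projection to the configurations of the round -/
def prj {V G Ξ : Type} {s b : ℕ} (ω : Cf V G Ξ s b) : Om V G Ξ s b :=
  (fun g => (ω (Sum.inl g)).1, fun ξ => (ω (Sum.inr (Sum.inl ξ))).2.1,
    fun v => (ω (Sum.inr (Sum.inr v))).2.2)

/-- the rest -/
abbrev Rst (V G Ξ : Type) (s b : ℕ) : Type :=
  (G → Fin 3 × Fin b) × (Ξ → Fin s × Fin b) × (V → Fin s × Fin 3)

/-- the configurations are the configurations of the round times the rest -/
def eqv (V G Ξ : Type) (s b : ℕ) : Cf V G Ξ s b ≃ Om V G Ξ s b × Rst V G Ξ s b where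
  toFun ω := (prj ω, (fun g => (ω (Sum.inl g)).2,
    fun ξ => ((ω (Sum.inr (Sum.inl ξ))).1, (ω (Sum.inr (Sum.inl ξ))).2.2),
    fun v => ((ω (Sum.inr (Sum.inr v))).1, (ω (Sum.inr (Sum.inr v))).2.1)))
  invFun p := Sum.elim (fun g => (p.1.1 g, p.2.1 g))
    (Sum.elim (fun ξ => ((p.2.2.1 ξ).1, p.1.2.1 ξ, (p.2.2.1 ξ).2))
      (fun v => ((p.2.2.2 v).1, (p.2.2.2 v).2, p.1.2.2 v)))
  left_inv ω := by
    funext i
    rcases i with g | ξ | v <;> rfl
  right_inv p := rfl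

lemma card_prj {V G Ξ : Type} {s b : ℕ} [Fintype V] [Fintype G] [Fintype Ξ]
    (E : Set (Om V G Ξ s b)) :
    ((({ω : Cf V G Ξ s b | prj ω ∈ E}).ncard : ℕ) : ℝ) * (Nat.card (Om V G Ξ s b) : ℝ) =
      (E.ncard : ℝ) * (Nat.card (Cf V G Ξ s b) : ℝ) := by
  classical
  have h1 : {ω : Cf V G Ξ s b | prj ω ∈ E}.ncard = (E ×ˢ (Set.univ : Set (Rst V G Ξ s b))).ncard := by
    have h2 : (eqv V G Ξ s b) '' {ω : Cf V G Ξ s b | prj ω ∈ E} =
        E ×ˢ (Set.univ : Set (Rst V G Ξ s b)) := by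
      ext p
      constructor
      · rintro ⟨ω, hω, rfl⟩
        exact ⟨hω, Set.mem_univ _⟩
      · rintro ⟨hp, _⟩
        refine ⟨(eqv V G Ξ s b).symm p, ?_, (eqv V G Ξ s b).apply_symm_apply p⟩
        have h3 : prj ((eqv V G Ξ s b).symm p) = p.1 := by
          have := (eqv V G Ξ s b).apply_symm_apply p
          exact congrArg Prod.fst this
        change prj ((eqv V G Ξ s b).symm p) ∈ E
        rw [h3]
        exact hp
    rw [← h2, Set.ncard_image_of_injective _ (eqv V G Ξ s b).injective]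
  have h4 : Nat.card (Cf V G Ξ s b) = Nat.card (Om V G Ξ s b) * Nat.card (Rst V G Ξ s b) := by
    rw [Nat.card_congr (eqv V G Ξ s b), Nat.card_prod]
  rw [h1, Set.ncard_prod, h4, Set.ncard_univ]
  push_cast
  ring

lemma prj_le {V G Ξ : Type} {s b : ℕ} [Fintype V] [Fintype G] [Fintype Ξ] [NeZero s] [NeZero b]
    (E : Set (Om V G Ξ s b)) (r : ℝ) (h : (E.ncard : ℝ) ≤ r * (Nat.card (Om V G Ξ s b) : ℝ)) :
    ((({ω : Cf V G Ξ s b | prj ω ∈ E}).ncard : ℕ) : ℝ) ≤ r * (Nat.card (Cf V G Ξ s b) : ℝ) := by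
  have h1 := card_prj E
  have h2 : (0 : ℝ) < Nat.card (Om V G Ξ s b) := by
    have : 0 < Nat.card (Om V G Ξ s b) := Nat.card_pos
    exact_mod_cast this
  have h3 : (0 : ℝ) ≤ Nat.card (Cf V G Ξ s b) := Nat.cast_nonneg _
  have h4 : ((({ω : Cf V G Ξ s b | prj ω ∈ E}).ncard : ℕ) : ℝ) * (Nat.card (Om V G Ξ s b) : ℝ) ≤
      (r * (Nat.card (Cf V G Ξ s b) : ℝ)) * (Nat.card (Om V G Ξ s b) : ℝ) := by
    rw [h1]
    calc (E.ncard : ℝ) * (Nat.card (Cf V G Ξ s b) : ℝ) ≤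
        (r * (Nat.card (Om V G Ξ s b) : ℝ)) * (Nat.card (Cf V G Ξ s b) : ℝ) :=
          mul_le_mul_of_nonneg_right h h3
      _ = _ := by ring
  exact le_of_mul_le_mul_right h4 h2

end Pool.Agent.CG.H31
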