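import Pool.Agent.Helper31_CG.RllcA

/-!
# CG, module RLLC, part B: supports and counting
-/

set_option autoImplicit false

namespace Pool.Agent.CG.H31

open SimpleGraph Pool.Agent.LAG Pool.Agent.LLG Pool.Agent.CG Pool.Agent.LLG.H31

variable {V G Ξ : Type} {s b : ℕ} [NeZero s] [Fintype V] [Fintype G] [Fintype Ξ]

/-- the arcs which matter for a violator -/
def Arc (O : V → V → Prop) (A S : Set V) : Set (V × V) :=
  {a | O a.1 a.2 ∧ (a.1 ∈ A ∨ (∃ y' ∈ S, O a.1 y') ∨ a.2 ∈ S ∨ ∃ x' ∈ A, O x' a.2)}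

/-- the coordinates of a violator -/
noncomputable def WV (D : Rd V G Ξ s) (A S : Set V) : Finset (G ⊕ (Ξ ⊕ V)) :=
  open Classical in
  Finset.univ.filter fun i => (∃ a ∈ Arc D.O A S, Sum.inl (D.grp a.1 a.2) = i) ∨
    (∃ ξ r, (D.e ξ r).2 ∈ S ∧ Sum.inr (Sum.inl ξ) = i) ∨ ∃ v ∈ A, Sum.inr (Sum.inr v) = i

/-- the weights of the coordinates -/
def ta (τ1 τ2 τ3 : ℝ) : G ⊕ (Ξ ⊕ V) → ℝ :=
  Sum.elim (fun _ => τ1) (Sum.elim (fun _ => τ2) (fun _ => τ3))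

lemma ncard_tl (A S : Set V) : (tl A S).ncard = A.ncard + S.ncard := by
  classical
  unfold tl
  rw [Set.ncard_union_eq, Set.ncard_image_of_injective _ Sum.inl_injective,
    Set.ncard_image_of_injective _ Sum.inr_injective]
  rw [Set.disjoint_left]
  rintro _ ⟨x, _, rfl⟩ ⟨y, _, h⟩
  exact absurd h (by simp)

/-- number of arcs -/
lemma ncard_Arc (O : V → V → Prop) (k : ℕ)
    (hreg : ∀ v, {w | O v w}.ncard = k ∧ {w | O w v}.ncard = k) (A S : Set V) :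
    (Arc O A S).ncard ≤ (k + k ^ 2) * (A.ncard + S.ncard) := by
  classical
  -- arcs with tail in X
  have hT : ∀ X : Set V, {a : V × V | O a.1 a.2 ∧ a.1 ∈ X}.ncard ≤ k * X.ncard := by
    intro X
    have h1 : {a : V × V | O a.1 a.2 ∧ a.1 ∈ X} ⊆
        ((X.toFinset.biUnion fun x => ({w | O x w}.toFinset.image fun y => (x, y)) :
          Finset (V × V)) : Set (V × V)) := by
      rintro ⟨x, y⟩ ⟨h1, h2⟩
      simp only [Finset.mem_coe, Finset.mem_biUnion, Set.mem_toFinset, Finset.mem_image]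
      exact ⟨x, h2, y, h1, rfl⟩
    refine (Set.ncard_le_ncard h1 (Finset.finite_toSet _)).trans ?_
    rw [Set.ncard_coe_finset]
    refine Finset.card_biUnion_le.trans ?_
    refine (Finset.sum_le_card_nsmul _ _ k fun x _ => ?_).trans (le_of_eq ?_)
    · refine Finset.card_image_le.trans ?_
      rw [← Set.ncard_eq_toFinset_card']
      exact (hreg x).1.le
    · rw [smul_eq_mul, mul_comm, Set.ncard_eq_toFinset_card']
  have hH : ∀ X : Set V, {a : V × V | O a.1 a.2 ∧ a.2 ∈ X}.ncard ≤ k * X.ncard := by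
    intro X
    have h1 : {a : V × V | O a.1 a.2 ∧ a.2 ∈ X} ⊆
        ((X.toFinset.biUnion fun y => ({w | O w y}.toFinset.image fun x => (x, y)) :
          Finset (V × V)) : Set (V × V)) := by
      rintro ⟨x, y⟩ ⟨h1, h2⟩
      simp only [Finset.mem_coe, Finset.mem_biUnion, Set.mem_toFinset, Finset.mem_image]
      exact ⟨y, h2, x, h1, rfl⟩
    refine (Set.ncard_le_ncard h1 (Finset.finite_toSet _)).trans ?_
    rw [Set.ncard_coe_finset]
    refine Finset.card_biUnion_le.trans ?_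
    refine (Finset.sum_le_card_nsmul _ _ k fun x _ => ?_).trans (le_of_eq ?_)
    · refine Finset.card_image_le.trans ?_
      rw [← Set.ncard_eq_toFinset_card']
      exact (hreg x).2.le
    · rw [smul_eq_mul, mul_comm, Set.ncard_eq_toFinset_card']
  have hN1 : {x | ∃ y' ∈ S, O x y'}.ncard ≤ k * S.ncard := by
    have h1 : {x | ∃ y' ∈ S, O x y'} ⊆ Prod.fst '' {a : V × V | O a.1 a.2 ∧ a.2 ∈ S} := by
      rintro x ⟨y, hy, h⟩
      exact ⟨(x, y), ⟨h, hy⟩, rfl⟩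
    exact (Set.ncard_le_ncard h1 (Set.toFinite _)).trans
      ((Set.ncard_image_le (Set.toFinite _)).trans (hH S))
  have hN2 : {y | ∃ x' ∈ A, O x' y}.ncard ≤ k * A.ncard := by
    have h1 : {y | ∃ x' ∈ A, O x' y} ⊆ Prod.snd '' {a : V × V | O a.1 a.2 ∧ a.1 ∈ A} := by
      rintro y ⟨x, hx, h⟩
      exact ⟨(x, y), ⟨h, hx⟩, rfl⟩
    exact (Set.ncard_le_ncard h1 (Set.toFinite _)).trans
      ((Set.ncard_image_le (Set.toFinite _)).trans (hT A))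
  have h1 : Arc O A S ⊆ ({a : V × V | O a.1 a.2 ∧ a.1 ∈ A} ∪
      {a : V × V | O a.1 a.2 ∧ a.1 ∈ {x | ∃ y' ∈ S, O x y'}}) ∪
      ({a : V × V | O a.1 a.2 ∧ a.2 ∈ S} ∪
      {a : V × V | O a.1 a.2 ∧ a.2 ∈ {y | ∃ x' ∈ A, O x' y}}) := by
    rintro a ⟨ha, h | h | h | h⟩
    · exact Or.inl (Or.inl ⟨ha, h⟩)
    · exact Or.inl (Or.inr ⟨ha, h⟩)
    · exact Or.inr (Or.inl ⟨ha, h⟩)
    · exact Or.inr (Or.inr ⟨ha, h⟩)
  refine (Set.ncard_le_ncard h1 (Set.toFinite _)).trans ?_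
  refine (Set.ncard_union_le _ _).trans ?_
  refine (add_le_add (Set.ncard_union_le _ _) (Set.ncard_union_le _ _)).trans ?_
  have e1 := hT A
  have e2 := (hT {x | ∃ y' ∈ S, O x y'}).trans (Nat.mul_le_mul_left k hN1)
  have e3 := hH S
  have e4 := (hH {y | ∃ x' ∈ A, O x' y}).trans (Nat.mul_le_mul_left k hN2)
  calc _ ≤ (k * A.ncard + k * (k * S.ncard)) + (k * S.ncard + k * (k * A.ncard)) :=
        add_le_add (add_le_add e1 e2) (add_le_add e3 e4)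
    _ = _ := by ring

/-- number of candidates which matter for a violator -/
lemma ncard_xi (e : Ξ → Fin 3 → V × V) (hed : ∀ ξ r ξ' r', (ξ, r) ≠ (ξ', r') →
      (e ξ r).1 ≠ (e ξ' r').1 ∧ (e ξ r).2 ≠ (e ξ' r').2) (S : Set V) :
    {ξ | ∃ r, (e ξ r).2 ∈ S}.ncard ≤ S.ncard := by
  classical
  have h1 : ∀ ξ, ∃ r, ξ ∈ {ξ | ∃ r, (e ξ r).2 ∈ S} → (e ξ r).2 ∈ S := by
    intro ξ
    by_cases h : ∃ r, (e ξ r).2 ∈ S
    · obtain ⟨r, hr⟩ := h
      exact ⟨r, fun _ => hr⟩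
    · exact ⟨0, fun h' => absurd h' h⟩
  choose f hf using h1
  refine Set.ncard_le_ncard_of_injOn (fun ξ => (e ξ (f ξ)).2) hf ?_ (Set.toFinite _)
  intro ξ hξ ξ' hξ' h
  by_contra hne
  refine (hed ξ (f ξ) ξ' (f ξ') ?_).2 h
  intro h2
  exact hne (congrArg Prod.fst h2)

lemma sum_union_le' {ι : Type} [DecidableEq ι] (s t : Finset ι) (f : ι → ℝ) (hf : ∀ i, 0 ≤ f i) :
    ∑ i ∈ s ∪ t, f i ≤ ∑ i ∈ s, f i + ∑ i ∈ t, f i := by
  rw [← Finset.sum_union_inter]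
  have : 0 ≤ ∑ i ∈ s ∩ t, f i := Finset.sum_nonneg fun i _ => hf i
  linarith

lemma sum_image_le' {ι κ : Type} [DecidableEq κ] (s : Finset ι) (g : ι → κ) (f : κ → ℝ) (c : ℝ)
    (hc : 0 ≤ c) (hf : ∀ i ∈ s, f (g i) = c) : ∑ i ∈ s.image g, f i ≤ s.card * c := by
  have h1 : ∑ i ∈ s.image g, f i = (s.image g).card * c := by
    rw [← nsmul_eq_mul]
    apply Finset.sum_eq_card_nsmul
    intro i hi
    obtain ⟨a, ha, rfl⟩ := Finset.mem_image.1 hi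
    exact hf a ha
  rw [h1]
  refine mul_le_mul_of_nonneg_right ?_ hc
  exact_mod_cast Finset.card_image_le

/-- the sum of the weights over the coordinates of a violator -/
lemma sum_WV (D : Rd V G Ξ s) (k d : ℕ) (hD : D.Ok k d) (A S : Set V) (τ1 τ2 τ3 B : ℝ)
    (h1 : 0 ≤ τ1) (h2 : 0 ≤ τ2) (h3 : 0 ≤ τ3) (hk : 1 ≤ k) (hB : 0 < B)
    (h4 : τ1 ≤ 1 / (400 * (k : ℝ) ^ 2 * B)) (h5 : τ2 ≤ 1 / (400 * B))
    (h6 : τ3 ≤ 1 / (400 * B)) :
    ∑ i ∈ WV D A S, ta τ1 τ2 τ3 i ≤ ((tl A S).ncard : ℝ) / (50 * B) := by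
  classical
  have hsub : WV D A S ⊆
      ((Arc D.O A S).toFinset.image fun a => Sum.inl (D.grp a.1 a.2)) ∪
      (({ξ | ∃ r, (D.e ξ r).2 ∈ S}.toFinset.image fun ξ => Sum.inr (Sum.inl ξ)) ∪
      (A.toFinset.image fun v => Sum.inr (Sum.inr v))) := by
    intro i hi
    simp only [WV, Finset.mem_filter, Finset.mem_univ, true_and] at hi
    simp only [Finset.mem_union, Finset.mem_image, Set.mem_toFinset]
    rcases hi with ⟨a, ha, h⟩ | ⟨ξ, r, hr, h⟩ | ⟨v, hv, h⟩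
    · exact Or.inl ⟨a, ha, h⟩
    · exact Or.inr (Or.inl ⟨ξ, ⟨r, hr⟩, h⟩)
    · exact Or.inr (Or.inr ⟨v, hv, h⟩)
  have hta : ∀ i : G ⊕ (Ξ ⊕ V), 0 ≤ ta τ1 τ2 τ3 i := by
    rintro (g | ξ | v)
    · exact h1
    · exact h2
    · exact h3
  refine (Finset.sum_le_sum_of_subset_of_nonneg hsub fun i _ _ => hta i).trans ?_
  refine (sum_union_le' _ _ _ hta).trans ?_
  refine (add_le_add le_rfl (sum_union_le' _ _ _ hta)).trans ?_
  have s1 : ∑ i ∈ (Arc D.O A S).toFinset.image fun a => (Sum.inl (D.grp a.1 a.2) : G ⊕ (Ξ ⊕ V)),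
      ta τ1 τ2 τ3 i ≤ (Arc D.O A S).toFinset.card * τ1 := sum_image_le' _ _ _ _ h1 fun _ _ => rfl
  have s2 : ∑ i ∈ {ξ | ∃ r, (D.e ξ r).2 ∈ S}.toFinset.image fun ξ =>
      (Sum.inr (Sum.inl ξ) : G ⊕ (Ξ ⊕ V)), ta τ1 τ2 τ3 i ≤
      ({ξ | ∃ r, (D.e ξ r).2 ∈ S}.toFinset.card : ℝ) * τ2 :=
    sum_image_le' _ _ _ _ h2 fun _ _ => rfl
  have s3 : ∑ i ∈ A.toFinset.image fun v => (Sum.inr (Sum.inr v) : G ⊕ (Ξ ⊕ V)),
      ta τ1 τ2 τ3 i ≤ (A.toFinset.card : ℝ) * τ3 := sum_image_le' _ _ _ _ h3 fun _ _ => rfl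
  rw [← Set.ncard_eq_toFinset_card'] at s1 s2 s3
  have hkR : (1 : ℝ) ≤ k := by exact_mod_cast hk
  have c1 : ((Arc D.O A S).ncard : ℝ) ≤ 2 * (k : ℝ) ^ 2 * (tl A S).ncard := by
    have e1 := ncard_Arc D.O k hD.reg A S
    have e2 : ((Arc D.O A S).ncard : ℝ) ≤ ((k : ℝ) + k ^ 2) * (tl A S).ncard := by
      rw [ncard_tl]
      exact_mod_cast e1
    have e3 : (k : ℝ) + k ^ 2 ≤ 2 * k ^ 2 := by nlinarith
    exact e2.trans (mul_le_mul_of_nonneg_right e3 (Nat.cast_nonneg _))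
  have c2 : (({ξ | ∃ r, (D.e ξ r).2 ∈ S}.ncard : ℕ) : ℝ) ≤ (tl A S).ncard := by
    have e1 := ncard_xi D.e hD.ed S
    have e2 : {ξ | ∃ r, (D.e ξ r).2 ∈ S}.ncard ≤ (tl A S).ncard := by
      rw [ncard_tl]; omega
    exact_mod_cast e2
  have c3 : (A.ncard : ℝ) ≤ (tl A S).ncard := by
    have e2 : A.ncard ≤ (tl A S).ncard := by
      rw [ncard_tl]; omega
    exact_mod_cast e2
  have hU : (0 : ℝ) ≤ (tl A S).ncard := Nat.cast_nonneg _
  have t1 : ((Arc D.O A S).ncard : ℝ) * τ1 ≤ (tl A S).ncard / (200 * B) := by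
    calc ((Arc D.O A S).ncard : ℝ) * τ1 ≤ (2 * (k : ℝ) ^ 2 * (tl A S).ncard) * τ1 :=
          mul_le_mul_of_nonneg_right c1 h1
      _ ≤ (2 * (k : ℝ) ^ 2 * (tl A S).ncard) * (1 / (400 * (k : ℝ) ^ 2 * B)) :=
          mul_le_mul_of_nonneg_left h4 (by positivity)
      _ = (tl A S).ncard / (200 * B) := by
          field_simp
          ring
  have t2 : (({ξ | ∃ r, (D.e ξ r).2 ∈ S}.ncard : ℕ) : ℝ) * τ2 ≤ (tl A S).ncard / (400 * B) := by
    calc _ ≤ ((tl A S).ncard : ℝ) * τ2 := mul_le_mul_of_nonneg_right c2 h2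
      _ ≤ (tl A S).ncard * (1 / (400 * B)) := mul_le_mul_of_nonneg_left h5 hU
      _ = _ := by rw [mul_one_div]
  have t3 : (A.ncard : ℝ) * τ3 ≤ (tl A S).ncard / (400 * B) := by
    calc _ ≤ ((tl A S).ncard : ℝ) * τ3 := mul_le_mul_of_nonneg_right c3 h3
      _ ≤ (tl A S).ncard * (1 / (400 * B)) := mul_le_mul_of_nonneg_left h6 hU
      _ = _ := by rw [mul_one_div]
  have t4 : ((tl A S).ncard : ℝ) / (200 * B) + ((tl A S).ncard / (400 * B) +
      (tl A S).ncard / (400 * B)) ≤ (tl A S).ncard / (50 * B) := by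
    have e1 : ((tl A S).ncard : ℝ) / (200 * B) = 1 / 200 * ((tl A S).ncard / B) := by
      field_simp
    have e2 : ((tl A S).ncard : ℝ) / (400 * B) = 1 / 400 * ((tl A S).ncard / B) := by
      field_simp
    have e3 : ((tl A S).ncard : ℝ) / (50 * B) = 1 / 50 * ((tl A S).ncard / B) := by
      field_simp
    have e4 : 0 ≤ ((tl A S).ncard : ℝ) / B := by positivity
    rw [e1, e2, e3]
    linarith
  linarith

end Pool.Agent.CG.H31
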