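import Pool.Agent.Helper31_CG.RllcB

/-!
# CG, module RLLC, part C: sums over the violators
-/

set_option autoImplicit false

namespace Pool.Agent.CG.H31

open SimpleGraph Pool.Agent.LAG Pool.Agent.LLG Pool.Agent.CG
open Pool.Agent.LLG.H31 hiding tl

variable {V G Ξ : Type} {s : ℕ} [NeZero s] [Fintype V] [Fintype G] [Fintype Ξ]

lemma coe_UU (A S : Finset V) : ((UU true A S : Finset (V ⊕ V)) : Set (V ⊕ V)) =
    Pool.Agent.CG.tl (A : Set V) (S : Set V) := by
  ext p
  rw [Finset.mem_coe]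
  rcases p with x | y
  · have h1 := mem_UU_ct true A S x
    have h2 : (ct true x : V ⊕ V) = Sum.inl x := rfl
    rw [h2] at h1
    rw [h1]
    simp [Pool.Agent.CG.tl]
  · have h1 := mem_UU_ch true A S y
    have h2 : (ch true y : V ⊕ V) = Sum.inr y := rfl
    rw [h2] at h1
    rw [h1]
    simp [Pool.Agent.CG.tl]

/-- indices of the violators of one side -/
abbrev VI (O : V → V → Prop) (s : ℕ) : Type :=
  {p : Fin s × (Finset V × Finset V) //
    ((dbl O).induce (Pool.Agent.CG.tl (p.2.1 : Set V) (p.2.2 : Set V))).Connected}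

/-- base points of a coordinate -/
noncomputable def PB (D : Rd V G Ξ s) : G ⊕ (Ξ ⊕ V) → Finset (V ⊕ V) :=
  open Classical in
  Sum.elim
    (fun g => (Finset.univ.filter fun a : V × V => D.O a.1 a.2 ∧ D.grp a.1 a.2 = g).biUnion
      fun a => ({y | D.O a.1 y}.toFinset.image Sum.inr) ∪ ({x | D.O x a.2}.toFinset.image Sum.inl))
    (Sum.elim (fun ξ => Finset.univ.image fun r => Sum.inr (D.e ξ r).2) (fun v => {Sum.inl v}))

lemma base (D : Rd V G Ξ s) (A S : Set V) (i : G ⊕ (Ξ ⊕ V)) (hi : i ∈ WV D A S) :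
    ∃ p ∈ PB D i, p ∈ Pool.Agent.CG.tl A S := by
  classical
  simp only [WV, Finset.mem_filter, Finset.mem_univ, true_and] at hi
  rcases hi with ⟨a, ⟨ha, h⟩, rfl⟩ | ⟨ξ, r, hr, rfl⟩ | ⟨v, hv, rfl⟩
  · have key : ∀ p : V ⊕ V, (∃ y, D.O a.1 y ∧ p = Sum.inr y) ∨ (∃ x, D.O x a.2 ∧ p = Sum.inl x) →
        p ∈ PB D (Sum.inl (D.grp a.1 a.2)) := by
      intro p hp
      simp only [PB, Sum.elim_inl, Finset.mem_biUnion, Finset.mem_filter, Finset.mem_univ,
        true_and, Finset.mem_union, Finset.mem_image, Set.mem_toFinset, Set.mem_setOf_eq]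
      refine ⟨a, ⟨ha, rfl⟩, ?_⟩
      rcases hp with ⟨y, hy, rfl⟩ | ⟨x, hx, rfl⟩
      · exact Or.inl ⟨y, hy, rfl⟩
      · exact Or.inr ⟨x, hx, rfl⟩
    rcases h with h | ⟨y', hy', h⟩ | h | ⟨x', hx', h⟩
    · exact ⟨Sum.inl a.1, key _ (Or.inr ⟨a.1, ha, rfl⟩), Or.inl ⟨_, h, rfl⟩⟩
    · exact ⟨Sum.inr y', key _ (Or.inl ⟨y', h, rfl⟩), Or.inr ⟨_, hy', rfl⟩⟩
    · exact ⟨Sum.inr a.2, key _ (Or.inl ⟨a.2, ha, rfl⟩), Or.inr ⟨_, h, rfl⟩⟩
    · exact ⟨Sum.inl x', key _ (Or.inr ⟨x', h, rfl⟩), Or.inl ⟨_, hx', rfl⟩⟩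
  · refine ⟨Sum.inr (D.e ξ r).2, ?_, Or.inr ⟨_, hr, rfl⟩⟩
    simp only [PB, Sum.elim_inr, Sum.elim_inl, Finset.mem_image, Finset.mem_univ, true_and]
    exact ⟨r, rfl⟩
  · refine ⟨Sum.inl v, ?_, Or.inl ⟨_, hv, rfl⟩⟩
    simp [PB]

lemma card_PB1 (D : Rd V G Ξ s) (k d : ℕ) (hD : D.Ok k d) (hs : 2 * s ≤ k) (g : G) :
    (PB D (Sum.inl g)).card ≤ k ^ 2 := by
  classical
  simp only [PB, Sum.elim_inl]
  have h1 : (Finset.univ.filter fun a : V × V => D.O a.1 a.2 ∧ D.grp a.1 a.2 = g).card ≤ s := by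
    have h2 := Finset.card_le_card_of_injOn
      (s := Finset.univ.filter fun a : V × V => D.O a.1 a.2 ∧ D.grp a.1 a.2 = g)
      (t := (Finset.univ : Finset (Fin s))) (fun a => D.idx a.1 a.2)
      (fun a _ => Finset.mem_coe.2 (Finset.mem_univ _)) (by
        intro a ha a' ha' h
        rw [Finset.mem_coe, Finset.mem_filter] at ha ha'
        have h3 := hD.gs.inj _ _ _ _ ha.2.1 ha'.2.1 (ha.2.2.trans ha'.2.2.symm) h
        exact Prod.ext h3.1 h3.2)
    rwa [Finset.card_univ, Fintype.card_fin] at h2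
  refine Finset.card_biUnion_le.trans ?_
  refine (Finset.sum_le_card_nsmul _ _ (2 * k) fun a _ => ?_).trans ?_
  · refine (Finset.card_union_le _ _).trans ?_
    have e1 : (({y | D.O a.1 y}.toFinset : Finset V).image (Sum.inr : V → V ⊕ V)).card ≤ k := by
      refine Finset.card_image_le.trans ?_
      rw [← Set.ncard_eq_toFinset_card']
      exact (hD.reg a.1).1.le
    have e2 : (({x | D.O x a.2}.toFinset : Finset V).image (Sum.inl : V → V ⊕ V)).card ≤ k := by
      refine Finset.card_image_le.trans ?_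
      rw [← Set.ncard_eq_toFinset_card']
      exact (hD.reg a.2).2.le
    omega
  · rw [smul_eq_mul]
    calc _ ≤ s * (2 * k) := Nat.mul_le_mul_right _ h1
      _ = (2 * s) * k := by ring
      _ ≤ k * k := Nat.mul_le_mul_right _ hs
      _ = k ^ 2 := by ring

lemma card_PB2 (D : Rd V G Ξ s) (ξ : Ξ) : (PB D (Sum.inr (Sum.inl ξ))).card ≤ 3 := by
  classical
  simp only [PB, Sum.elim_inr, Sum.elim_inl]
  refine Finset.card_image_le.trans ?_
  rw [Finset.card_univ, Fintype.card_fin]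

lemma card_PB3 (D : Rd V G Ξ s) (v : V) : (PB D (Sum.inr (Sum.inr v))).card ≤ 1 := by
  classical
  simp [PB]

/-- nonnegativity of the weight -/
lemma Wt_nonneg {W : Type} [Fintype W] (Γ : SimpleGraph W) (k c w : ℕ) (κ : ℝ) (U : Set W)
    (hdeg : ∀ v, (Γ.neighborSet v).ncard = k) : 0 ≤ Wt Γ k c w κ U := by
  unfold Wt
  refine mul_nonneg (Finset.prod_nonneg fun z _ => pow_nonneg ?_ _) (Real.exp_pos _).le
  unfold uu
  split_ifs with h
  · positivity
  · have h1 : dg Γ U z ≤ k := by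
      rw [← hdeg z]
      exact Set.ncard_le_ncard (fun y hy => hy.2) (Set.toFinite _)
    rw [sub_nonneg]
    rcases Nat.eq_zero_or_pos k with hk | hk
    · rw [hk]; simp
    · rw [div_le_one (by exact_mod_cast hk)]
      exact_mod_cast h1

/-- upper bound of the weight -/
lemma Wt_le_one {W : Type} [Fintype W] (Γ : SimpleGraph W) (k c w : ℕ) (κ : ℝ) (U : Set W)
    (hk : 1 ≤ k) (hκ : 0 ≤ κ) (hdeg : ∀ v, (Γ.neighborSet v).ncard = k) :
    Wt Γ k c w κ U ≤ 1 := by
  unfold Wt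
  have hkR : (1 : ℝ) ≤ k := by exact_mod_cast hk
  have hdg : ∀ z, (dg Γ U z : ℝ) ≤ k := by
    intro z
    have h1 : dg Γ U z ≤ k := by
      rw [← hdeg z]
      exact Set.ncard_le_ncard (fun y hy => hy.2) (Set.toFinite _)
    exact_mod_cast h1
  have h1 : ∏ z : W, uu Γ k U z ^ c ≤ 1 := by
    refine Finset.prod_le_one (fun z _ => pow_nonneg ?_ _) fun z _ => pow_le_one₀ ?_ ?_
    · unfold uu
      split_ifs
      · positivity
      · rw [sub_nonneg, div_le_one (by linarith)]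
        exact hdg z
    · unfold uu
      split_ifs
      · positivity
      · rw [sub_nonneg, div_le_one (by linarith)]
        exact hdg z
    · unfold uu
      split_ifs
      · rw [div_le_one (by linarith)]
        exact hdg z
      · rw [sub_le_self_iff]
        positivity
  have h2 : Real.exp (-(2 * (bd Γ U : ℝ) / k +
      Real.log k * ((vp Γ w U : ℝ) + κ * (U.ncard : ℝ)))) ≤ 1 := by
    rw [Real.exp_le_one_iff, neg_nonpos]
    have : 0 ≤ Real.log k := Real.log_nonneg hkR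
    positivity
  calc _ ≤ 1 * 1 := mul_le_mul h1 h2 (Real.exp_pos _).le (by norm_num)
    _ = 1 := one_mul _

/-- sum over the violators which depend on a coordinate -/
lemma viol_sum (hC : CountcStmt) (D : Rd V G Ξ s) {k d c m Dd w : ℕ} (hk : 2 ≤ k) (hc : 1 ≤ c)
    (hm : 1 ≤ m) (hw : 1 ≤ w) (hD : D.Ok k d) (hsp : SpD (dbl D.O) Dd m)
    (hnum : (k : ℝ) ^ 2 * ((Dd : ℝ) / w) ^ c ≤ 1 / 2) (i : G ⊕ (Ξ ⊕ V))
    (J1 : Finset (VI D.O s)) (hJ : ∀ p ∈ J1, i ∈ WV D (p.1.2.1 : Set V) (p.1.2.2 : Set V))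
    (x : ℝ) (hx : 0 ≤ x) :
    ∑ p ∈ J1, x * Wt (dbl D.O) k c w (kap k c m Dd w)
      (Pool.Agent.CG.tl (p.1.2.1 : Set V) (p.1.2.2 : Set V)) ≤ s * (PB D i).card * x := by
  classical
  have hdeg : ∀ v, ((dbl D.O).neighborSet v).ncard = k := dbl_deg hD.reg
  set f : VI D.O s → ℝ := fun p => x * Wt (dbl D.O) k c w (kap k c m Dd w)
      (Pool.Agent.CG.tl (p.1.2.1 : Set V) (p.1.2.2 : Set V)) with hf
  have hf0 : ∀ p, 0 ≤ f p := fun p => mul_nonneg hx (Wt_nonneg _ _ _ _ _ _ hdeg)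
  -- one base point and one colour
  have hone : ∀ (v : V ⊕ V) (t : Fin s),
      ∑ p ∈ J1 with v ∈ Pool.Agent.CG.tl (p.1.2.1 : Set V) (p.1.2.2 : Set V) ∧ p.1.1 = t, f p ≤ x := by
    intro v t
    set J2 := J1.filter fun p : VI D.O s =>
      v ∈ Pool.Agent.CG.tl (p.1.2.1 : Set V) (p.1.2.2 : Set V) ∧ p.1.1 = t with hJ2
    have hinj : Set.InjOn (fun p : VI D.O s => UU true p.1.2.1 p.1.2.2) (J2 : Set (VI D.O s)) := by
      intro p hp p' hp' h
      rw [Finset.mem_coe, hJ2, Finset.mem_filter] at hp hp'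
      have h4 := UU_inj true h
      apply Subtype.ext
      apply Prod.ext (hp.2.2.trans hp'.2.2.symm)
      exact Prod.ext h4.1 h4.2
    have h3 := hC (V ⊕ V) (dbl D.O) k c m Dd w hk hc hm hw hdeg hsp hnum v
      (J2.image fun p : VI D.O s => UU true p.1.2.1 p.1.2.2) (by
        intro U hU
        rw [Finset.mem_image] at hU
        obtain ⟨p, hp, rfl⟩ := hU
        rw [hJ2, Finset.mem_filter] at hp
        constructor
        · rw [← Finset.mem_coe, coe_UU]
          exact hp.2.1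
        · rw [coe_UU]
          exact p.2)
    rw [Finset.sum_image hinj] at h3
    have h5 : ∑ p ∈ J2, f p = x * ∑ p ∈ J2, Wt (dbl D.O) k c w (kap k c m Dd w)
        ((UU true p.1.2.1 p.1.2.2 : Finset (V ⊕ V)) : Set (V ⊕ V)) := by
      rw [Finset.mul_sum]
      refine Finset.sum_congr rfl fun p _ => ?_
      rw [coe_UU]
    rw [h5]
    calc _ ≤ x * 1 := mul_le_mul_of_nonneg_left h3 hx
      _ = x := mul_one _
  have hv : ∀ v : V ⊕ V,
      ∑ p ∈ J1 with v ∈ Pool.Agent.CG.tl (p.1.2.1 : Set V) (p.1.2.2 : Set V), f p ≤ s * x := by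
    intro v
    rw [← Finset.sum_fiberwise _ (fun p : VI D.O s => p.1.1)]
    calc _ ≤ ∑ _t : Fin s, x := by
          refine Finset.sum_le_sum fun t _ => ?_
          rw [Finset.filter_filter]
          exact hone v t
      _ = s * x := by
          rw [Finset.sum_const, Finset.card_univ, Fintype.card_fin, nsmul_eq_mul]
  calc ∑ p ∈ J1, f p ≤ ∑ p ∈ J1, ∑ v ∈ PB D i,
        (if v ∈ Pool.Agent.CG.tl (p.1.2.1 : Set V) (p.1.2.2 : Set V) then f p else 0) := by
        refine Finset.sum_le_sum fun p hp => ?_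
        obtain ⟨v, hv1, hv2⟩ := base D _ _ i (hJ p hp)
        have h6 := Finset.single_le_sum (f := fun v =>
          if v ∈ Pool.Agent.CG.tl (p.1.2.1 : Set V) (p.1.2.2 : Set V) then f p else 0)
          (fun v _ => by
            split_ifs
            · exact hf0 p
            · exact le_rfl) hv1
        simp only [if_pos hv2] at h6
        exact h6
    _ = ∑ v ∈ PB D i, ∑ p ∈ J1,
        (if v ∈ Pool.Agent.CG.tl (p.1.2.1 : Set V) (p.1.2.2 : Set V) then f p else 0) :=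
        Finset.sum_comm
    _ ≤ ∑ _v ∈ PB D i, s * x := by
        refine Finset.sum_le_sum fun v _ => ?_
        rw [← Finset.sum_filter]
        exact hv v
    _ = s * (PB D i).card * x := by
        rw [Finset.sum_const, nsmul_eq_mul]
        ring

end Pool.Agent.CG.H31
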